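import Mathlib
import Pool.Agent.Lib_helper40.TreeLinf
import Pool.Agent.Lib_helper40.TreeRefl

set_option autoImplicit false

namespace Pool.Agent.Results.MP_71cf49_an.NeitherAlternative

/-- The Banach-Mazur distance of two isomorphic normed spaces: the infimum of
`‖T‖ * ‖T⁻¹‖` over all (bounded linear) isomorphisms `T : E → F`. -/
noncomputable def banachMazur (E F : Type) [NormedAddCommGroup E] [NormedSpace ℝ E]
    [NormedAddCommGroup F] [NormedSpace ℝ F] : ℝ :=
  sInf {c : ℝ | ∃ T : E ≃L[ℝ] F, c = ‖(T : E →L[ℝ] F)‖ * ‖(T.symm : F →L[ℝ] E)‖}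

/-- `Z` is an `L_{∞,lam}`-space: every finite-dimensional subspace `E` is contained in a
finite-dimensional subspace `F` with `d(F, ℓ_∞^n) ≤ lam`, `n = dim F`. -/
def IsLInfty (lam : ℝ) (Z : Type) [NormedAddCommGroup Z] [NormedSpace ℝ Z] : Prop :=
  ∀ E : Submodule ℝ Z, FiniteDimensional ℝ E → ∃ F : Submodule ℝ Z, E ≤ F ∧
    FiniteDimensional ℝ F ∧ banachMazur F (Fin (Module.finrank ℝ F) → ℝ) ≤ lam

/-- `Z` is an `L_∞`-space: an `L_{∞,lam}`-space for some `lam ≥ 1`. -/
def IsLInftySpace (Z : Type) [NormedAddCommGroup Z] [NormedSpace ℝ Z] : Prop :=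
  ∃ lam : ℝ, 1 ≤ lam ∧ IsLInfty lam Z

/-- `Z` is reflexive: the canonical map into the bidual is onto. -/
def IsReflexive (Z : Type) [NormedAddCommGroup Z] [NormedSpace ℝ Z] : Prop :=
  Function.Surjective (NormedSpace.inclusionInDoubleDual ℝ Z)

open Pool.Agent.Lib_helper40.Tree in
theorem no_linfty (W : Submodule ℝ EE) (h : IsLInftySpace W) : FiniteDimensional ℝ W := by
  by_contra hW
  obtain ⟨lam, _, h⟩ := h
  refine no_linf W hW (lam + 1) fun F hFW hF => ?_
  set E : Submodule ℝ W := F.comap W.subtype with hE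
  have hmap : E.map W.subtype = F := by
    rw [hE, Submodule.map_comap_subtype, inf_eq_right]
    exact hFW
  have e1 : E ≃ₗ[ℝ] F := by
    have := Submodule.equivMapOfInjective W.subtype W.subtype_injective E
    rwa [hmap] at this
  have hEfd : FiniteDimensional ℝ E := Module.Finite.equiv e1.symm
  obtain ⟨G, hEG, hG, hd⟩ := h E hEfd
  -- the isomorphic copy of `G` inside of `EE`
  let e2 : G ≃ₗᵢ[ℝ] (G.map W.subtype) :=
    { Submodule.equivMapOfInjective W.subtype W.subtype_injective G with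
      norm_map' := fun x => rfl }
  have hfd : FiniteDimensional ℝ (G.map W.subtype) := Module.Finite.equiv e2.toLinearEquiv
  have hrank : Module.finrank ℝ G = Module.finrank ℝ (G.map W.subtype) :=
    e2.toLinearEquiv.finrank_eq
  refine ⟨G.map W.subtype, ?_, Submodule.map_subtype_le _ _, hfd, ?_⟩
  · rw [← hmap]
    exact Submodule.map_mono hEG
  · obtain ⟨c, ⟨T, rfl⟩, hc⟩ := exists_lt_of_csInf_lt (s := {c : ℝ | ∃ T : G ≃L[ℝ]
        (Fin (Module.finrank ℝ G) → ℝ), c = ‖(T : G →L[ℝ] (Fin (Module.finrank ℝ G) → ℝ))‖ *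
        ‖(T.symm : (Fin (Module.finrank ℝ G) → ℝ) →L[ℝ] G)‖})
      (by
        refine ⟨_, ?_, rfl⟩
        exact ContinuousLinearEquiv.ofFinrankEq (by simp))
      (lt_of_le_of_lt hd (lt_add_one lam))
    rw [← hrank]
    refine ⟨e2.symm.toContinuousLinearEquiv.trans T, ?_⟩
    have h1 : ‖((e2.symm.toContinuousLinearEquiv.trans T : (G.map W.subtype) ≃L[ℝ] _) :
        (G.map W.subtype) →L[ℝ] (Fin (Module.finrank ℝ G) → ℝ))‖
        ≤ ‖(T : G →L[ℝ] (Fin (Module.finrank ℝ G) → ℝ))‖ := by
      refine ContinuousLinearMap.opNorm_le_bound _ (ContinuousLinearMap.opNorm_nonneg _) fun x => ?_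
      have := (T : G →L[ℝ] (Fin (Module.finrank ℝ G) → ℝ)).le_opNorm (e2.symm x)
      rwa [e2.symm.norm_map] at this
    have h2 : ‖((e2.symm.toContinuousLinearEquiv.trans T).symm :
        (Fin (Module.finrank ℝ G) → ℝ) →L[ℝ] (G.map W.subtype))‖
        ≤ ‖(T.symm : (Fin (Module.finrank ℝ G) → ℝ) →L[ℝ] G)‖ := by
      refine ContinuousLinearMap.opNorm_le_bound _ (ContinuousLinearMap.opNorm_nonneg _) fun x => ?_
      have := (T.symm : (Fin (Module.finrank ℝ G) → ℝ) →L[ℝ] G).le_opNorm x
      calc ‖(e2.symm.toContinuousLinearEquiv.trans T).symm x‖ = ‖e2 (T.symm x)‖ := rfl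
        _ = ‖T.symm x‖ := e2.norm_map _
        _ ≤ _ := this
    calc _ ≤ ‖(T : G →L[ℝ] (Fin (Module.finrank ℝ G) → ℝ))‖ *
        ‖(T.symm : (Fin (Module.finrank ℝ G) → ℝ) →L[ℝ] G)‖ :=
          mul_le_mul h1 h2 (ContinuousLinearMap.opNorm_nonneg _) (ContinuousLinearMap.opNorm_nonneg _)
      _ ≤ lam + 1 := hc.le

open Pool.Agent.Lib_helper40.Tree in
theorem separable : TopologicalSpace.SeparableSpace EE := by
  have h1 : TopologicalSpace.IsSeparable (base : Set LL) := by
    have h2 : (base : Set LL) ⊆ ⋃ K : ℕ, Set.range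
        (fun y : Fin K → ℝ => ((pe K (ez K y) : EE).1 : LL)) := by
      rintro u ⟨K, y, hu⟩
      refine Set.mem_iUnion.2 ⟨K, fun i => y i, ?_⟩
      show ((pe K (ez K fun i => y i) : EE).1 : LL) = u
      rw [pe_ez]
      apply lp.ext
      funext n
      exact (hu n).symm
    refine TopologicalSpace.IsSeparable.mono ?_ h2
    refine TopologicalSpace.IsSeparable.iUnion fun K => ?_
    have h3 : Continuous (fun y : Fin K → ℝ => ((pe K (ez K y) : EE).1 : LL)) := by
      have h4 : Continuous ((pe K).comp (ez K)) := LinearMap.continuous_of_finiteDimensional _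
      exact continuous_subtype_val.comp h4
    exact TopologicalSpace.isSeparable_range h3
  have h5 : TopologicalSpace.IsSeparable (EM : Set LL) := h1.closure
  exact h5.separableSpace

/-- There is a separable infinite-dimensional real Banach space `X` no infinite-dimensional
subspace (closed or not) of which is an `L_∞`-space, and all of whose reflexive quotients are
finite-dimensional. -/
theorem result : ∃ (X : Type) (_ : NormedAddCommGroup X) (_ : NormedSpace ℝ X),
    CompleteSpace X ∧ TopologicalSpace.SeparableSpace X ∧ ¬ FiniteDimensional ℝ X ∧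
    (∀ W : Submodule ℝ X, IsLInftySpace W → FiniteDimensional ℝ W) ∧
    (∀ Y : Submodule ℝ X, ∀ [IsClosed (Y : Set X)],
      IsReflexive (X ⧸ Y) → FiniteDimensional ℝ (X ⧸ Y)) := by
  refine ⟨Pool.Agent.Lib_helper40.Tree.EE, inferInstance, inferInstance, inferInstance,
    separable, Pool.Agent.Lib_helper40.Tree.not_finiteDimensional, no_linfty, ?_⟩
  intro Y _ hY
  by_contra hfd
  exact Pool.Agent.Lib_helper40.Tree.no_refl hfd hY (Submodule.mkQL Y)
    (Submodule.Quotient.mk_surjective Y)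

end Pool.Agent.Results.MP_71cf49_an.NeitherAlternative
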